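import Pool.Agent.H75.SH.Stm

set_option autoImplicit false

open Finset

namespace Pool.Agent.H66.SH

open Pool.Agent.H75.SH
open Pool.Agent.H378R2 (Phi EPhi yy z2 PW WW GoodS GoodP)
open Pool.Agent.H387R2.Uni (nuT Adm locT CT piT gT GG gd)
open Pool.Agent.H75.AS (rad)

theorem GP_mono {ε ε' : ℝ} {Z Z' N : ℕ} {P : Finset ℕ} (h : GP ε Z N P) (hε : ε ≤ ε')
    (hZ : Z' ≤ Z) : GP ε' Z' N P :=
  ⟨h.prime, h.le, fun p hp hpZ => h.small p hp (hpZ.trans hZ), h.thin.trans hε, h.size⟩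

theorem PA_mono {ε ε' d : ℝ} {W N : ℕ} (h : PA ε d W N) (hε : ε ≤ ε') : PA ε' d W N := by
  intro a ha
  refine le_trans ?_ (h a ha)
  refine div_le_div_of_nonneg_right ?_ (mul_nonneg (Nat.cast_nonneg _) (Real.log_natCast_nonneg _))
  exact mul_le_mul_of_nonneg_right (by linarith) (Nat.cast_nonneg _)

theorem rad_dvd {ε : ℝ} {Z N q : ℕ} {P : Finset ℕ} (h : GP ε Z N P) (hq : 1 ≤ q) (hqZ : q ≤ Z) :
    rad q ∣ ∏ p ∈ P, p := by
  unfold rad
  apply Finset.prod_dvd_prod_of_subset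
  intro p hp
  exact h.small p (Nat.prime_of_mem_primeFactors hp)
    ((Nat.le_of_dvd hq (Nat.dvd_of_mem_primeFactors hp)).trans hqZ)

theorem t_MAIN (hPR : S_PR) (hCTS : S_CTS) (hCL : S_CL) (hCNT : S_CNT) (hPM : S_PM)
    (hUPS : S_UPS) : S_MAIN := by
  intro k ε₀ hε₀
  obtain ⟨ε, hε, hε2, hεε⟩ : ∃ ε : ℝ, 0 < ε ∧ ε ≤ 1 / 2 ∧ ε ≤ ε₀ :=
    ⟨min ε₀ (1 / 2), lt_min hε₀ (by norm_num), min_le_right _ _, min_le_left _ _⟩
  obtain ⟨δ, hδ⟩ : ∃ δ : ℝ, δ = ε / 8 := ⟨_, rfl⟩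
  have hδ0 : 0 < δ := by rw [hδ]; linarith
  have hδ1 : δ < 1 := by linarith
  obtain ⟨ε₁, C, hε₁, hε₁2, hC, hcl⟩ := hCL k δ hδ0 hδ1
  obtain ⟨δ₂, hδ₂, Z₂, N₂, hcts⟩ := hCTS k δ hδ0
  obtain ⟨d, hd, hd1, hpr⟩ := hPR (min ε₁ δ₂) (lt_min hε₁ hδ₂)
  obtain ⟨K, hK, hpm⟩ := hPM k δ C hδ0 hC
  have hd2 : d ≤ 1 / 2 := hd1.trans ((min_le_left _ _).trans hε₁2)
  refine ⟨K, d, hK, hd, by linarith, fun q hq => ?_⟩
  obtain ⟨N₁, hN₁⟩ := hpr (max q Z₂)
  obtain ⟨N₃, hN₃⟩ := Filter.eventually_atTop.1 (Pool.Agent.H387R2.Uni.li_upper (k + 1) hδ0)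
  refine ⟨max (max (max N₁ N₂) (max N₃ 3)) (max ⌈ε₁⁻¹ ^ 2⌉₊ ⌈((k : ℝ) + 1) / d⌉₊),
    fun N hN c A hA hcard => ?_⟩
  have g1 : N₁ ≤ N := ((le_max_left _ _).trans ((le_max_left _ _).trans (le_max_left _ _))).trans hN
  have g2 : N₂ ≤ N := ((le_max_right _ _).trans ((le_max_left _ _).trans (le_max_left _ _))).trans hN
  have g3 : N₃ ≤ N := ((le_max_left _ _).trans ((le_max_right _ _).trans (le_max_left _ _))).trans hN
  have g4 : 3 ≤ N := ((le_max_right _ _).trans ((le_max_right _ _).trans (le_max_left _ _))).trans hN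
  have g5 : ⌈ε₁⁻¹ ^ 2⌉₊ ≤ N := ((le_max_left _ _).trans (le_max_right _ _)).trans hN
  have g6 : ⌈((k : ℝ) + 1) / d⌉₊ ≤ N := ((le_max_right _ _).trans (le_max_right _ _)).trans hN
  have hN3 : (3 : ℝ) ≤ N := by exact_mod_cast g4
  have hN0 : (0 : ℝ) < N := by linarith
  obtain ⟨P, hGP, hPA⟩ := hN₁ N g1
  have hGP2 : GP δ₂ Z₂ N P := GP_mono hGP (min_le_right _ _) (le_max_right _ _)
  have hPA1 : PA ε₁ d (∏ p ∈ P, p) N := PA_mono hPA (min_le_left _ _)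
  have hrad : rad q ∣ ∏ p ∈ P, p := rad_dvd hGP hq (le_max_left _ _)
  have hCB := hcts N g2 P hGP2
  obtain ⟨W, hW⟩ : ∃ W : ℕ, W = ∏ p ∈ P, p := ⟨_, rfl⟩
  have hsize := hGP.size
  rw [← hW] at hPA1 hrad hCB hsize
  have hW0 : 0 < W := by
    rw [hW]
    exact prod_pos fun p hp => (hGP.prime p hp).pos
  have hWr : (0 : ℝ) < W := by exact_mod_cast hW0
  have hWN : (W : ℝ) ≤ ε₁ * N := by
    have h1 : ε₁⁻¹ ^ 2 ≤ (N : ℝ) := (Nat.le_ceil _).trans (by exact_mod_cast g5)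
    have h2 : ε₁⁻¹ ≤ Real.sqrt N := Real.le_sqrt_of_sq_le h1
    have h3 : (N : ℝ) ^ (1 / 100 : ℝ) ≤ Real.sqrt N := by
      rw [Real.sqrt_eq_rpow]
      exact Real.rpow_le_rpow_of_exponent_le (by linarith) (by norm_num)
    have h4 : Real.sqrt N * Real.sqrt N = N := Real.mul_self_sqrt hN0.le
    have h5 : 1 ≤ ε₁ * Real.sqrt N := by
      calc (1 : ℝ) = ε₁ * ε₁⁻¹ := (mul_inv_cancel₀ hε₁.ne').symm
        _ ≤ ε₁ * Real.sqrt N := mul_le_mul_of_nonneg_left h2 hε₁.le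
    calc (W : ℝ) ≤ Real.sqrt N := hsize.trans h3
      _ = 1 * Real.sqrt N := (one_mul _).symm
      _ ≤ (ε₁ * Real.sqrt N) * Real.sqrt N := mul_le_mul_of_nonneg_right h5 (Real.sqrt_nonneg _)
      _ = ε₁ * N := by rw [mul_assoc, h4]
  have hkd : (k : ℝ) + 1 ≤ d * N := by
    have h1 : ((k : ℝ) + 1) / d ≤ N := (Nat.le_ceil _).trans (by exact_mod_cast g6)
    rw [div_le_iff₀ hd] at h1
    linarith
  have hA1 : ∀ a ∈ A, 1 ≤ a := fun a ha => (hA a ha).2.1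
  have hAd : ∀ a ∈ A, (a : ℝ) ≤ d * N := fun a ha => (hA a ha).2.2
  have hAN : ∀ a ∈ A, 1 ≤ a ∧ a ≤ N := by
    intro a ha
    refine ⟨hA1 a ha, ?_⟩
    have h1 : (a : ℝ) ≤ N := (hAd a ha).trans (by nlinarith)
    exact_mod_cast h1
  have hAc : ∀ a ∈ A, a ≡ c [MOD q] := fun a ha => (hA a ha).1
  have hpm' := hpm W q c N A hW0 hq g4 hrad hAc hcard
  have hups' := hUPS k W N δ A hδ0 hW0 g4 hCB hAN
  have hcnt' := hCNT k N d A hkd hA1
  obtain ⟨s, hs⟩ : ∃ s : ℝ, s = ∑ b ∈ range W, mb W N A b ^ (k + 1) := ⟨_, rfl⟩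
  rw [← hs] at hpm'
  have hmb0 : ∀ b, 0 ≤ mb W N A b := by
    intro b
    unfold mb
    exact mul_nonneg (Nat.cast_nonneg _) (div_nonneg (Nat.cast_nonneg _)
      (mul_nonneg (Nat.cast_nonneg _) (Real.log_natCast_nonneg _)))
  have hs0 : 0 ≤ s := by
    rw [hs]
    exact sum_nonneg fun b _ => pow_nonneg (hmb0 b) _
  -- the good classes
  have hsub : gd W (rad q) c ⊆ range W := filter_subset _ _
  have hsG : ∑ b ∈ gd W (rad q) c, mb W N A b ^ (k + 1) = s := by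
    rw [hs]
    refine sum_subset hsub fun b hb hb' => ?_
    have hnc : ¬ Nat.Coprime (rad q) (b + c) := fun h =>
      hb' (mem_filter.2 ⟨hb, h⟩)
    unfold mb
    rw [Pool.Agent.H75.AS.Ab_emp hrad hq hAc hnc]
    simp
  have hfac : (0 : ℝ) < (k + 1).factorial := by exact_mod_cast Nat.factorial_pos _
  have hlow : ((N : ℝ) / W) * ((1 - 2 * δ) * s / (k + 1).factorial) ≤
      ∑ n ∈ range (N + 1), (((rn d N A n).choose (k + 1) : ℕ) : ℝ) := by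
    have h1 : ∑ b ∈ gd W (rad q) c,
        ((N : ℝ) / W) * (((1 - δ) * mb W N A b ^ (k + 1) - C) / (k + 1).factorial) ≤
        ∑ b ∈ range W, ∑ n ∈ (range (N + 1)).filter (fun n => n % W = b),
          (((rn d N A n).choose (k + 1) : ℕ) : ℝ) := by
      refine (sum_le_sum fun b hb => ?_).trans
        (sum_le_sum_of_subset_of_nonneg hsub fun b _ _ => sum_nonneg fun n _ => Nat.cast_nonneg _)
      exact hcl d W N b A hW0 (mem_range.1 (hsub hb)) g4 hWN hPA1 hAd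
    rw [Pool.Agent.H75.AS.sum_classes hW0] at h1
    refine le_trans ?_ h1
    rw [← mul_sum]
    refine mul_le_mul_of_nonneg_left ?_ (div_nonneg hN0.le hWr.le)
    rw [← sum_div, sum_sub_distrib, ← mul_sum, hsG, sum_const, nsmul_eq_mul]
    refine div_le_div_of_nonneg_right ?_ hfac.le
    nlinarith
  have hli := hN₃ N g3
  have hlogpos : 0 < Real.log N := Real.log_pos (by linarith)
  have hCT0 : 0 ≤ ∑ T ∈ A.powersetCard (k + 1), CT T :=
    sum_nonneg fun T _ => Pool.Agent.H387R2.Uni.CT_nonneg T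
  have hint0 : 0 ≤ ∫ t in (2 : ℝ)..N, 1 / Real.log t ^ (k + 1) := by
    apply intervalIntegral.integral_nonneg (by linarith)
    intro t ht
    have : 0 ≤ Real.log t := Real.log_nonneg (by linarith [ht.1])
    positivity
  have hup : (∑ T ∈ A.powersetCard (k + 1), CT T) *
      (∫ t in (2 : ℝ)..N, 1 / Real.log t ^ (k + 1)) ≤
      (1 + δ) ^ 2 * (((N : ℝ) / W) * (s / (k + 1).factorial)) := by
    have h1 : (∑ T ∈ A.powersetCard (k + 1), CT T) ≤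
        (1 + δ) * (Real.log N ^ (k + 1) / W * (s / (k + 1).factorial)) := by
      refine hups'.trans (le_of_eq ?_)
      rw [hs, sum_div]
    calc (∑ T ∈ A.powersetCard (k + 1), CT T) * (∫ t in (2 : ℝ)..N, 1 / Real.log t ^ (k + 1)) ≤
        ((1 + δ) * (Real.log N ^ (k + 1) / W * (s / (k + 1).factorial))) *
          ((1 + δ) * (N / Real.log N ^ (k + 1))) :=
          mul_le_mul h1 hli hint0 (by positivity)
      _ = (1 + δ) ^ 2 * (((N : ℝ) / W) * (s / (k + 1).factorial)) := by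
          field_simp
  have hM0 : 0 ≤ ((N : ℝ) / W) * (s / (k + 1).factorial) := by positivity
  calc (1 - ε₀) * (∑ T ∈ A.powersetCard (k + 1), CT T) *
        (∫ t in (2 : ℝ)..N, 1 / Real.log t ^ (k + 1))
      = (1 - ε₀) * ((∑ T ∈ A.powersetCard (k + 1), CT T) *
        (∫ t in (2 : ℝ)..N, 1 / Real.log t ^ (k + 1))) := by ring
    _ ≤ (1 - ε) * ((∑ T ∈ A.powersetCard (k + 1), CT T) *
        (∫ t in (2 : ℝ)..N, 1 / Real.log t ^ (k + 1))) :=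
        mul_le_mul_of_nonneg_right (by linarith) (mul_nonneg hCT0 hint0)
    _ ≤ (1 - ε) * ((1 + δ) ^ 2 * (((N : ℝ) / W) * (s / (k + 1).factorial))) :=
        mul_le_mul_of_nonneg_left hup (by linarith)
    _ = ((1 - ε) * (1 + δ) ^ 2) * (((N : ℝ) / W) * (s / (k + 1).factorial)) := by ring
    _ ≤ (1 - 2 * δ) * (((N : ℝ) / W) * (s / (k + 1).factorial)) := by
        refine mul_le_mul_of_nonneg_right ?_ hM0
        have : ε = 8 * δ := by rw [hδ]; ring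
        rw [this]
        nlinarith [pow_pos hδ0 2, pow_pos hδ0 3]
    _ = ((N : ℝ) / W) * ((1 - 2 * δ) * s / (k + 1).factorial) := by ring
    _ ≤ ∑ n ∈ range (N + 1), (((rn d N A n).choose (k + 1) : ℕ) : ℝ) := hlow
    _ ≤ ∑ T ∈ A.powersetCard (k + 1), (piT T N : ℝ) := hcnt'

end Pool.Agent.H66.SH
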